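import Mathlib
import Pool.Agent.Y546.WQ.Stm3

/-!
# WH-POLE2: a linear relation between the values of `W / V` at `T, ..., T ^ n` is never an identity
-/

set_option autoImplicit false

namespace Pool.Agent.Y286.WQ

open Polynomial Pool.Agent.Y546.WQ

theorem lin_step {p : ℕ} (n : ℕ) (W V : Polynomial (ZMod p)) (b : ℕ → ZMod p) (d : ZMod p)
    (hb : b (n + 1) = 0) : Lin (n + 1) W V b d = V.comp (X ^ (n + 1)) * Lin n W V b d := by
  have hI : Finset.Icc 1 (n + 1) = insert (n + 1) (Finset.Icc 1 n) := by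
    ext k; simp only [Finset.mem_Icc, Finset.mem_insert]; omega
  have hn : (n + 1) ∉ Finset.Icc 1 n := by simp
  have h1 : ∀ i ∈ Finset.Icc 1 n, ∏ k ∈ (insert (n + 1) (Finset.Icc 1 n)).erase i,
      V.comp (X ^ k) = V.comp (X ^ (n + 1)) * ∏ k ∈ (Finset.Icc 1 n).erase i, V.comp (X ^ k) := by
    intro i hi
    have hne : n + 1 ≠ i := by rintro rfl; exact hn hi
    rw [Finset.erase_insert_of_ne hne, Finset.prod_insert]
    intro h; exact hn (Finset.mem_of_mem_erase h)
  have hs : ∑ i ∈ Finset.Icc 1 n, C (b i) * W.comp (X ^ i) *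
      ∏ k ∈ (insert (n + 1) (Finset.Icc 1 n)).erase i, V.comp (X ^ k) =
      V.comp (X ^ (n + 1)) * ∑ i ∈ Finset.Icc 1 n, C (b i) * W.comp (X ^ i) *
        ∏ k ∈ (Finset.Icc 1 n).erase i, V.comp (X ^ k) := by
    rw [Finset.mul_sum]
    refine Finset.sum_congr rfl fun i hi => ?_
    rw [h1 i hi]; ring
  unfold Lin
  rw [hI, Finset.sum_insert hn, Finset.prod_insert hn, hb, hs]
  simp only [map_zero, zero_mul, zero_add]
  ring

theorem lin_mul {p : ℕ} (n : ℕ) (g W V : Polynomial (ZMod p)) (b : ℕ → ZMod p) (d : ZMod p) :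
    Lin n (g * W) (g * V) b d = (∏ k ∈ Finset.Icc 1 n, g.comp (X ^ k)) * Lin n W V b d := by
  have h1 : ∑ i ∈ Finset.Icc 1 n, C (b i) * (g * W).comp (X ^ i) *
      ∏ k ∈ (Finset.Icc 1 n).erase i, (g * V).comp (X ^ k) =
      (∏ k ∈ Finset.Icc 1 n, g.comp (X ^ k)) * ∑ i ∈ Finset.Icc 1 n, C (b i) * W.comp (X ^ i) *
        ∏ k ∈ (Finset.Icc 1 n).erase i, V.comp (X ^ k) := by
    rw [Finset.mul_sum]
    refine Finset.sum_congr rfl fun i hi => ?_
    rw [← Finset.mul_prod_erase (Finset.Icc 1 n) (fun k => g.comp (X ^ k)) hi]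
    have h2 : ∏ k ∈ (Finset.Icc 1 n).erase i, (g * V).comp (X ^ k) =
        (∏ k ∈ (Finset.Icc 1 n).erase i, g.comp (X ^ k)) *
          ∏ k ∈ (Finset.Icc 1 n).erase i, V.comp (X ^ k) := by
      rw [← Finset.prod_mul_distrib]
      exact Finset.prod_congr rfl fun k _ => mul_comp g V (X ^ k)
    rw [h2, mul_comp g W (X ^ i)]
    generalize (∏ k ∈ (Finset.Icc 1 n).erase i, g.comp (X ^ k)) = x1
    generalize (∏ k ∈ (Finset.Icc 1 n).erase i, V.comp (X ^ k)) = x2
    generalize g.comp (X ^ i) = x3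
    generalize W.comp (X ^ i) = x4
    generalize C (b i) = x5
    ring
  have h2 : ∏ k ∈ Finset.Icc 1 n, (g * V).comp (X ^ k) =
      (∏ k ∈ Finset.Icc 1 n, g.comp (X ^ k)) * ∏ k ∈ Finset.Icc 1 n, V.comp (X ^ k) := by
    rw [← Finset.prod_mul_distrib]
    exact Finset.prod_congr rfl fun k _ => mul_comp g V (X ^ k)
  unfold Lin
  rw [h1, h2]
  generalize (∏ k ∈ Finset.Icc 1 n, g.comp (X ^ k)) = x1
  generalize (∏ k ∈ Finset.Icc 1 n, V.comp (X ^ k)) = x2
  generalize (∑ i ∈ Finset.Icc 1 n, C (b i) * W.comp (X ^ i) *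
        ∏ k ∈ (Finset.Icc 1 n).erase i, V.comp (X ^ k)) = x3
  generalize C d = x4
  ring

theorem comp_ne {p : ℕ} [Fact p.Prime] {V : Polynomial (ZMod p)} (hV : V ≠ 0) {k : ℕ}
    (hk : 0 < k) : V.comp (X ^ k) ≠ 0 := by
  rw [← expand_eq_comp_X_pow]
  exact (expand_ne_zero hk).mpr hV

theorem orderOf_pos_alg {p : ℕ} [Fact p.Prime] {x : AlgebraicClosure (ZMod p)} (hx : x ≠ 0) :
    0 < orderOf x := by
  rw [orderOf_pos_iff]
  have hi : IsIntegral (ZMod p) x := Algebra.IsIntegral.isIntegral x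
  have : FiniteDimensional (ZMod p) (IntermediateField.adjoin (ZMod p) {x}) :=
    IntermediateField.adjoin.finiteDimensional hi
  have : Finite (IntermediateField.adjoin (ZMod p) {x}) :=
    Module.finite_of_finite (ZMod p)
  let y : IntermediateField.adjoin (ZMod p) {x} :=
    ⟨x, IntermediateField.mem_adjoin_simple_self (ZMod p) x⟩
  have hy : y ≠ 0 := by
    intro h
    apply hx
    exact congrArg Subtype.val h
  have h1 : IsOfFinOrder (Units.mk0 y hy) := isOfFinOrder_of_finite _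
  obtain ⟨n, hn, h2⟩ := isOfFinOrder_iff_pow_eq_one.mp h1
  refine isOfFinOrder_iff_pow_eq_one.mpr ⟨n, hn, ?_⟩
  have h3 : y ^ n = 1 := by
    have := congrArg Units.val h2
    simpa using this
  exact congrArg Subtype.val h3

theorem exists_root_order {p : ℕ} [Fact p.Prime] (n : ℕ) (hn : 0 < n) (hnp : n < p)
    {ρ : AlgebraicClosure (ZMod p)} (hρ : ρ ≠ 0) :
    ∃ T : AlgebraicClosure (ZMod p), T ^ n = ρ ∧ orderOf T = n * orderOf ρ := by
  set N := orderOf ρ with hN
  have hN0 : 0 < N := orderOf_pos_alg hρ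
  have : NeZero N := ⟨hN0.ne'⟩
  have hprim : IsPrimitiveRoot ρ N := IsPrimitiveRoot.orderOf ρ
  have h1 : NeZero ((N : ℕ) : AlgebraicClosure (ZMod p)) := hprim.neZero'
  have : CharP (AlgebraicClosure (ZMod p)) p := inferInstance
  have h2 : ((n : ℕ) : AlgebraicClosure (ZMod p)) ≠ 0 := by
    intro h
    rw [CharP.cast_eq_zero_iff (AlgebraicClosure (ZMod p)) p n] at h
    exact absurd (Nat.le_of_dvd hn h) (by omega)
  have hnN : 0 < n * N := Nat.mul_pos hn hN0
  have h3 : NeZero ((n * N : ℕ) : AlgebraicClosure (ZMod p)) := by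
    refine ⟨?_⟩
    push_cast
    exact mul_ne_zero h2 h1.out
  have : NeZero (n * N) := ⟨hnN.ne'⟩
  obtain ⟨ζ, hζ⟩ : ∃ ζ : AlgebraicClosure (ZMod p), IsPrimitiveRoot ζ (n * N) := by
    obtain ⟨ζ, hz⟩ := IsAlgClosed.exists_root (cyclotomic (n * N) (AlgebraicClosure (ZMod p)))
      (by
        rw [degree_cyclotomic]
        have := Nat.totient_pos.mpr hnN
        exact_mod_cast this.ne')
    exact ⟨ζ, isRoot_cyclotomic_iff.mp hz⟩
  have h4 : IsPrimitiveRoot (ζ ^ n) N := hζ.pow hnN rfl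
  obtain ⟨u, -, hu, hu2⟩ := (h4.isPrimitiveRoot_iff).mp hprim
  have hdvd : N ∣ n * N := Dvd.intro_left n rfl
  obtain ⟨v, hv⟩ := ZMod.unitsMap_surjective hdvd (ZMod.unitOfCoprime u hu)
  refine ⟨ζ ^ (v : ZMod (n * N)).val, ?_, ?_⟩
  · rw [← pow_mul, mul_comm, pow_mul, ← hu2]
    have h5 : (((v : ZMod (n * N)).val : ℕ) : ZMod N) = (u : ZMod N) := by
      have h6 := congrArg Units.val hv
      rw [ZMod.unitsMap_val, ZMod.coe_unitOfCoprime] at h6
      rw [← h6, ZMod.natCast_val]
    rw [ZMod.natCast_eq_natCast_iff] at h5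
    have h6 : (v : ZMod (n * N)).val % N = u % N := h5
    rw [pow_eq_pow_mod _ h4.pow_eq_one, h6, ← pow_eq_pow_mod _ h4.pow_eq_one]
  · have h7 : Nat.Coprime (v : ZMod (n * N)).val (n * N) := ZMod.val_coe_unit_coprime v
    exact (hζ.pow_of_coprime _ h7).eq_orderOf.symm

theorem aeval_lin {p : ℕ} [Fact p.Prime] (n : ℕ) (W V : Polynomial (ZMod p)) (b : ℕ → ZMod p)
    (d : ZMod p) (T : AlgebraicClosure (ZMod p)) (hn : 0 < n) (h : aeval (T ^ n) V = 0) :
    aeval T (Lin n W V b d) = algebraMap (ZMod p) (AlgebraicClosure (ZMod p)) (b n) *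
      aeval (T ^ n) W * ∏ k ∈ (Finset.Icc 1 n).erase n, aeval (T ^ k) V := by
  have hmem : n ∈ Finset.Icc 1 n := by simp only [Finset.mem_Icc]; omega
  unfold Lin
  simp only [map_sub, map_sum, map_mul, map_prod, aeval_comp, map_pow, aeval_X, aeval_C]
  rw [Finset.prod_eq_zero hmem h, mul_zero, sub_zero]
  rw [Finset.sum_eq_single_of_mem n hmem]
  intro i hi hin
  rw [Finset.prod_eq_zero (i := n) (Finset.mem_erase.mpr ⟨hin.symm, hmem⟩) h, mul_zero]

theorem core {p : ℕ} [Fact p.Prime] (b : ℕ → ZMod p) (d : ZMod p) (W V : Polynomial (ZMod p))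
    (hV0 : V.coeff 0 ≠ 0) (hcop : IsCoprime W V) : ∀ n : ℕ, n < p →
    (∃ i, 1 ≤ i ∧ i ≤ n ∧ b i ≠ 0) → Lin n W V b d = 0 → V.natDegree = 0 := by
  have hV : V ≠ 0 := by rintro rfl; simp at hV0
  intro n
  induction n with
  | zero => rintro - ⟨i, h1, h2, -⟩; omega
  | succ n ih =>
    intro hn hb hL
    by_cases hbn : b (n + 1) = 0
    · rw [lin_step n W V b d hbn] at hL
      rcases mul_eq_zero.mp hL with h | h
      · exact absurd h (comp_ne hV (Nat.succ_pos n))
      · obtain ⟨i, h1, h2, h3⟩ := hb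
        refine ih (by omega) ⟨i, h1, ?_, h3⟩ h
        rcases Nat.lt_or_ge n i with h4 | h4
        · have : i = n + 1 := by omega
          subst this
          exact absurd hbn h3
        · exact h4
    · by_contra hdeg
      have hne : (V.rootSet (AlgebraicClosure (ZMod p))).Nonempty := by
        obtain ⟨x, hx⟩ := IsAlgClosed.exists_aeval_eq_zero (AlgebraicClosure (ZMod p)) V
          (by
            intro h
            exact hdeg (natDegree_eq_of_degree_eq_some h))
        exact ⟨x, (mem_rootSet_of_ne hV).mpr hx⟩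
      obtain ⟨ρ, hρ, hmax⟩ := Set.exists_max_image _
        (fun x : AlgebraicClosure (ZMod p) => orderOf x)
        (V.rootSet_finite (AlgebraicClosure (ZMod p))) hne
      have hroot : aeval ρ V = 0 := (mem_rootSet_of_ne hV).mp hρ
      have hρ0 : ρ ≠ 0 := by
        rintro rfl
        rw [← coeff_zero_eq_aeval_zero'] at hroot
        apply hV0
        exact (map_eq_zero _).mp hroot
      obtain ⟨T, hT, hord⟩ := exists_root_order (n + 1) (Nat.succ_pos n) hn hρ0
      have hN0 := orderOf_pos_alg hρ0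
      have hpr : ∀ k ∈ (Finset.Icc 1 (n + 1)).erase (n + 1), aeval (T ^ k) V ≠ 0 := by
        intro k hk h0
        rw [Finset.mem_erase, Finset.mem_Icc] at hk
        have hle := hmax (T ^ k) ((mem_rootSet_of_ne hV).mpr h0)
        have hT0 : T ≠ 0 := by
          rintro rfl
          rw [zero_pow (Nat.succ_ne_zero n)] at hT
          exact hρ0 hT.symm
        have hM := orderOf_pos_alg (pow_ne_zero k hT0)
        have h1 : T ^ (k * orderOf (T ^ k)) = 1 := by rw [pow_mul, pow_orderOf_eq_one]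
        have h2 := orderOf_dvd_of_pow_eq_one h1
        rw [hord] at h2
        have h3 := Nat.le_of_dvd (Nat.mul_pos (by omega) hM) h2
        have h4 : k * orderOf (T ^ k) ≤ k * orderOf ρ := Nat.mul_le_mul_left k hle
        have h5 : k * orderOf ρ < (n + 1) * orderOf ρ :=
          Nat.mul_lt_mul_of_pos_right (by omega) hN0
        omega
      have hev := aeval_lin (n + 1) W V b d T (Nat.succ_pos n) (by rw [hT]; exact hroot)
      rw [hL, map_zero, hT] at hev
      have hbn' : algebraMap (ZMod p) (AlgebraicClosure (ZMod p)) (b (n + 1)) ≠ 0 := by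
        intro h
        exact hbn ((map_eq_zero _).mp h)
      have hW : aeval ρ W = 0 := by
        rcases mul_eq_zero.mp hev.symm with h | h
        · rcases mul_eq_zero.mp h with h | h
          · exact absurd h hbn'
          · exact h
        · exact absurd h (Finset.prod_ne_zero_iff.mpr hpr)
      obtain ⟨u, v, huv⟩ := hcop
      have := congrArg (aeval ρ) huv
      rw [map_add, map_mul, map_mul, hW, hroot, mul_zero, mul_zero, add_zero, map_one] at this
      exact zero_ne_one this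

theorem mainPOLE2 : S_POLE2 := by
  intro p _ n W V b d hn hdeg hV0 hW0 hb hL
  by_contra hW
  have hV : V ≠ 0 := by rintro rfl; simp at hV0
  obtain ⟨W1, hW1⟩ := EuclideanDomain.gcd_dvd_left W V
  obtain ⟨V1, hV1⟩ := EuclideanDomain.gcd_dvd_right W V
  have hgab := EuclideanDomain.gcd_eq_gcd_ab W V
  have hg : EuclideanDomain.gcd W V ≠ 0 := by
    intro h
    rw [h, zero_mul] at hV1
    exact hV hV1
  generalize hgdef : EuclideanDomain.gcd W V = g at *
  generalize EuclideanDomain.gcdA W V = A at *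
  generalize EuclideanDomain.gcdB W V = B at *
  have hcop : IsCoprime W1 V1 := by
    refine ⟨A, B, ?_⟩
    apply mul_left_cancel₀ hg
    calc g * (A * W1 + B * V1) = (g * W1) * A + (g * V1) * B := by ring
      _ = W * A + V * B := by rw [← hW1, ← hV1]
      _ = g * 1 := by rw [← hgab, mul_one]
  have hc0 : V.coeff 0 = g.coeff 0 * V1.coeff 0 := by rw [hV1, mul_coeff_zero]
  have hg0 : g.coeff 0 ≠ 0 := by
    intro h; rw [h, zero_mul] at hc0; exact hV0 hc0
  have hV10 : V1.coeff 0 ≠ 0 := by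
    intro h; rw [h, mul_zero] at hc0; exact hV0 hc0
  have hL1 : Lin n W1 V1 b d = 0 := by
    have h1 := lin_mul n g W1 V1 b d
    rw [← hW1, ← hV1, hL] at h1
    rcases mul_eq_zero.mp h1.symm with h | h
    · exfalso
      refine Finset.prod_ne_zero_iff.mpr (fun k hk => ?_) h
      rw [Finset.mem_Icc] at hk
      exact comp_ne hg hk.1
    · exact h
  have hd := core b d W1 V1 hV10 hcop n hn hb hL1
  have hW1ne : W1 ≠ 0 := by
    rintro rfl; rw [mul_zero] at hW1; exact hW hW1
  have hV1ne : V1 ≠ 0 := by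
    rintro rfl; rw [mul_zero] at hV1; exact hV hV1
  have h1 : W.natDegree = g.natDegree + W1.natDegree := by
    rw [hW1]; exact natDegree_mul hg hW1ne
  have h2 : V.natDegree = g.natDegree + V1.natDegree := by
    rw [hV1]; exact natDegree_mul hg hV1ne
  have h3 : W1.natDegree = 0 := by omega
  have h4 : W1 = C (W1.coeff 0) := eq_C_of_natDegree_eq_zero h3
  have h5 : W.coeff 0 = g.coeff 0 * W1.coeff 0 := by rw [hW1, mul_coeff_zero]
  rw [hW0] at h5
  rcases mul_eq_zero.mp h5.symm with h | h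
  · exact hg0 h
  · rw [h, map_zero] at h4
    exact hW1ne h4

end Pool.Agent.Y286.WQ
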